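import Pool.Agent.H27.JtI

/-! Parity classes of two rank statistics on partitions into two part sizes. -/

namespace Pool.Agent.Results.MP_cd2397_nt.Full
open Finset Pool.Agent.H27.Jt

/-- Partitions of `N` into two part sizes, as quadruples `(λ₁, m₁, λ₂, m₂)`. -/
def P2 (N : ℕ) : Finset (ℕ × ℕ × ℕ × ℕ) :=
  {x ∈ Icc 1 N ×ˢ Icc 1 N ×ˢ Icc 1 N ×ˢ Icc 1 N | x.2.2.1 < x.1 ∧ x.1 * x.2.1 + x.2.2.1 * x.2.2.2 = N}

def rk (x : ℕ × ℕ × ℕ × ℕ) : ℤ := x.1 - x.2.1 - x.2.2.2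

def rk2 (x : ℕ × ℕ × ℕ × ℕ) : ℤ := x.1 + x.2.2.1 - 2 * x.2.1 - x.2.2.2

/-- Number of members of `P2 N` whose statistic `s` has parity `e`. -/
def num (s : ℕ × ℕ × ℕ × ℕ → ℤ) (e : ℤ) (N : ℕ) : ℕ := #{x ∈ P2 N | s x % 2 = e}

def S : Finset (ℕ × ℕ) := {(16, 14), (36, 30), (72, 42), (196, 70), (252, 114)}

theorem link (s : ℕ × ℕ × ℕ × ℕ → ℤ) (e : ℤ) (N : ℕ) (φ : ℕ → ℕ → ℕ → ℕ → Prop)
    (h : ∀ a i b j, φ a i b j ↔ s (a, i, b, j) % 2 = e) :
    (cnt N fun a i b j => b < a ∧ φ a i b j) = num s e N := by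
  classical
  unfold cnt num
  congr 1
  ext ⟨a, i, b, j⟩
  simp only [QQ, P2, mem_filter, mem_product, mem_II, mem_Icc, h]
  omega

theorem all {m : ℕ} (h2 : m % 2 = 1) (q : ∀ i, i * i ≠ m) (s1 : ∀ x y, x * x + y * y ≠ 2 * m)
    (hR : ∀ R : Finset (ℕ × ℕ), (∀ x y, (x, y) ∈ R ↔ 0 < x ∧ 0 < y ∧ 2 * (x * x) + 4 * (y * y) = 2 * m) → 2 ∣ #R)
    (d3 : 8 ∣ ∑ d ∈ m.divisors, d) : (4 ∣ num rk2 0 (2 * m) ∧ 4 ∣ num rk2 1 (2 * m)) ∧
      (4 ∣ #m.divisors → 4 ∣ num rk 0 (2 * m) ∧ 4 ∣ num rk 1 (2 * m)) := by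
  obtain ⟨c1, c2, c3⟩ := cls h2 q s1 hR d3
  have a1 := cnt_add (n := 2 * m) (χ := fun a _ b _ => b < a ∧ True) (φ := fun a _ b j => b < a ∧ (a + b + j) % 2 = 0)
    (ψ := fun a _ b j => b < a ∧ (a + b + j) % 2 = 1) fun _ _ _ _ _ _ _ _ _ => by simp only [and_true]; omega
  have a2 := cnt_add (n := 2 * m) (χ := fun a _ b _ => b < a ∧ True) (φ := fun a i b j => b < a ∧ (a + i + j) % 2 = 0)
    (ψ := fun a i b j => b < a ∧ (a + i + j) % 2 = 1) fun _ _ _ _ _ _ _ _ _ => by simp only [and_true]; omega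
  rw [link rk2 0 _ (fun a _ b j => (a + b + j) % 2 = 0) fun _ _ _ _ => by simp only [rk2]; omega] at a1 c2
  rw [link rk 0 _ (fun a i _ j => (a + i + j) % 2 = 0) fun _ _ _ _ => by simp only [rk]; omega] at a2 c3
  rw [link rk2 1 _ (fun a _ b j => (a + b + j) % 2 = 1) fun _ _ _ _ => by simp only [rk2]; omega] at a1
  rw [link rk 1 _ (fun a i _ j => (a + i + j) % 2 = 1) fun _ _ _ _ => by simp only [rk]; omega] at a2
  omega

theorem sqm (k x : ℕ) : ∃ r < k + 1, x * x % (k + 1) = r * r % (k + 1) :=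
  ⟨x % (k + 1), Nat.mod_lt _ (by omega), Nat.mul_mod ..⟩

theorem split {p k : ℕ} (hp : p.Prime) (h : ¬p ∣ k) (h2 : k % 2 = 1) (q : ∀ i, i * i ≠ k) :
    4 ∣ #(p * k).divisors ∧ 2 * (p + 1) ∣ ∑ d ∈ (p * k).divisors, d := by
  have c := hp.coprime_iff_not_dvd.mpr h
  have l := L2 (k := k) (by omega) le_rfl q
  rw [c.card_divisors_mul, c.sum_divisors_mul, hp.sum_divisors, hp.divisors, card_pair hp.one_lt.ne, mul_comm 2 (p + 1)]
  refine ⟨by omega, Nat.mul_dvd_mul_left _ (sig fun a b e => ⟨?_, fun h => q a (h ▸ e)⟩)⟩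
  have := par a b
  omega

theorem res (p x y m : ℕ) (c : ℕ) (h : ∀ a < p, ∀ b < p, (a * a + c * (b * b)) % p = 0 → a = 0 ∧ b = 0)
    (hp : 0 < p) (hm : ¬p ∣ m) : x * x + c * (y * y) ≠ p * m := fun e => by
  obtain ⟨h1, h2⟩ := h _ (Nat.mod_lt x hp) _ (Nat.mod_lt y hp) (by
    have : (x * x + c * (y * y)) % p = 0 := by rw [e, Nat.mul_mod_right]
    simpa [Nat.add_mod, Nat.mul_mod] using this)
  obtain ⟨a, rfl⟩ := Nat.dvd_of_mod_eq_zero h1
  obtain ⟨b, rfl⟩ := Nat.dvd_of_mod_eq_zero h2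
  exact hm ⟨a * a + c * (b * b), Nat.eq_of_mul_eq_mul_left hp (by rw [← e]; ring)⟩

theorem case3 {k : ℕ} (h2 : k % 2 = 1) (h3 : k % 3 ≠ 0) (q : ∀ i, i * i ≠ k) :
    (4 ∣ num rk2 0 (6 * k) ∧ 4 ∣ num rk2 1 (6 * k)) ∧ 4 ∣ num rk 0 (6 * k) ∧ 4 ∣ num rk 1 (6 * k) := by
  obtain ⟨a, b⟩ := split Nat.prime_three (by omega) h2 q
  have := all (m := 3 * k) (by omega) (fun i h => res 3 i 0 k 1 (by decide) (by omega) (by omega) (by omega))
    (fun x y h => res 3 x y (2 * k) 1 (by decide) (by omega) (by omega) (by omega))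
    (fun _ h => three h2 h3 q h) b
  rw [show 6 * k = 2 * (3 * k) by ring]
  exact ⟨this.1, this.2 a⟩

theorem result : (∀ x ∈ S, ∀ n, 4 ∣ num rk2 0 (x.1 * n + x.2) ∧ 4 ∣ num rk2 1 (x.1 * n + x.2)) ∧
    ∀ x ∈ S \ {(16, 14)}, ∀ n, 4 ∣ num rk 0 (x.1 * n + x.2) ∧ 4 ∣ num rk 1 (x.1 * n + x.2) := by
  have s7 : ∀ i k, k % 7 = 5 → i * i ≠ k := fun i k h e => by
    obtain ⟨r, hr, h⟩ := sqm 6 i
    interval_cases r <;> omega
  have s8 : ∀ i, i * i % 8 = 0 ∨ i * i % 8 = 1 ∨ i * i % 8 = 4 := fun i => by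
    obtain ⟨r, hr, h⟩ := sqm 7 i
    interval_cases r <;> omega
  have a1 := fun n => case3 (k := 6 * n + 5) (by omega) (by omega) fun i e => by
    obtain ⟨r, hr, h⟩ := sqm 2 i
    interval_cases r <;> omega
  have a2 := fun n => case3 (k := 12 * n + 7) (by omega) (by omega) fun i e => by have := s8 i; omega
  have a3 := fun n => case3 (k := 42 * n + 19) (by omega) (by omega) fun i => s7 i _ (by omega)
  have a4 := fun n => all (m := 7 * (14 * n + 5)) (by omega)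
    (fun i h => res 7 i 0 (14 * n + 5) 1 (by decide) (by omega) (by omega) (by omega))
    (fun x y h => res 7 x y (2 * (14 * n + 5)) 1 (by decide) (by omega) (by omega) (by omega))
    (fun R h => by
      rw [eq_empty_of_forall_notMem (s := R) fun x hx =>
        res 7 x.1 x.2 (14 * n + 5) 2 (by decide) (by omega) (by omega) (by have := (h x.1 x.2).mp hx; omega)]
      simp)
    ((by norm_num : 8 ∣ 2 * (7 + 1)).trans (split (by norm_num) (by omega) (by omega) fun i => s7 i _ (by omega)).2)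
  have a5 := fun n => (a4 n).2 (split (by norm_num) (by omega) (by omega) fun i => s7 i _ (by omega)).1
  have a6 := fun n => (all (m := 8 * n + 7) (by omega) (fun i e => by have := s8 i; omega)
    (fun x y h => by
      obtain ⟨r, hr, h1⟩ := sqm 15 x
      obtain ⟨s, hs, h2⟩ := sqm 15 y
      have : ∀ r < 16, ∀ s < 16, (r * r % 16 + s * s % 16) % 16 ≠ 14 := by decide
      have := this r hr s hs
      omega)
    (fun R h => by
      rw [eq_empty_of_forall_notMem (s := R) fun x hx => by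
        have := (h x.1 x.2).mp hx
        have := s8 x.1
        have := s8 x.2
        omega]
      simp)
    (sig fun a b e => by
      have h := Nat.mul_mod a b 8
      have : ∀ r < 8, ∀ s < 8, r * s % 8 = 7 → (r + s) % 8 = 0 ∧ r ≠ s := by decide
      have := this _ (Nat.mod_lt a (by omega)) _ (Nat.mod_lt b (by omega)) (by omega)
      omega)).1
  simp only [mul_add, ← mul_assoc, Nat.reduceMul] at a1 a2 a3 a4 a5 a6
  simp only [S, mem_sdiff, mem_insert, mem_singleton]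
  refine ⟨?_, ?_⟩
  · rintro _ (rfl | rfl | rfl | rfl | rfl) n
    exacts [a6 n, (a1 n).1, (a2 n).1, (a4 n).1, (a3 n).1]
  · rintro _ ⟨rfl | rfl | rfl | rfl | rfl, h⟩ n
    exacts [absurd rfl h, (a1 n).2, (a2 n).2, a5 n, (a3 n).2]

end Pool.Agent.Results.MP_cd2397_nt.Full
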